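import Pool.Agent.N977.P.Stm

/-!
Project NSP (helper977), part MODA (helper27): the evolution of the amplitudes of the packets.
-/

set_option autoImplicit false

open MeasureTheory Set Filter Topology
open scoped ContDiff ComplexConjugate

namespace Pool.Agent.N27.NSP.Moda

open H459R3.NS Pool.Agent.N977.Q Pool.Agent.N977.S Pool.Agent.N977.P
open Pool.Agent.N977.K (SolK cmp)

variable {J : ℕ → ℕ} {G : Fin 2 → ℕ → K3 → ℝ} {α μ : ℕ → ℝ} {ν T : ℝ} {u : ℝ → V → V}
  {q : ℝ → V → ℝ}

/-! ### The right hand side -/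

theorem rhs_cont' {K : (V → V) → (V → V) → V → V} {v : V → V} (hv : SPV v) (hK : SPV (K v v))
    {P : V → ℝ} (hP : SP P) (i : Fin 3) : Continuous (rhs ν K v P i) :=
  (((continuous_const.mul (spv_sp hv i).lap.cont).sub (sp_conv (spv_sp hv) i).cont).sub
    (hP.pd i).cont).add (spv_sp hK i).cont

theorem fr_rhs' {K : (V → V) → (V → V) → V → V} {v : V → V} (hv : SPV v) (hK : SPV (K v v))
    {P : V → ℝ} (hP : SP P) (i : Fin 3) (k : K3) :
    fr (rhs ν K v P i) k
      = -(ν * ((2 * Real.pi) ^ 2 * len k ^ 2) : ℝ) * fr (fun x => v x i) k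
      - fr (conv (fun i y => v y i) i) k - 2 * Real.pi * Complex.I * (k i : ℂ) * fr P k
      + fr (fun x => K v v x i) k := by
  have c1 : Continuous fun x => ν * lap (fun y => v y i) x :=
    continuous_const.mul (spv_sp hv i).lap.cont
  have c2 : Continuous fun x => ν * lap (fun y => v y i) x - conv (fun i y => v y i) i x :=
    c1.sub (sp_conv (spv_sp hv) i).cont
  have c3 : Continuous fun x => ν * lap (fun y => v y i) x
    - conv (fun i y => v y i) i x - pd i P x := c2.sub (hP.pd i).cont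
  have e : rhs ν K v P i = fun x => (ν * lap (fun y => v y i) x
    - conv (fun i y => v y i) i x - pd i P x) + K v v x i := rfl
  rw [e, fr_add c3 (spv_sp hK i).cont, fr_sub c2 (hP.pd i).cont,
    fr_sub c1 (sp_conv (spv_sp hv) i).cont, fr_smul, fr_lap (spv_sp hv i), fr_pd' hP]
  push_cast
  ring

/-! ### Sums over the packets -/

theorem ts (hG : Pk J G) (e : Fin 2) (n : ℕ) (f : K3 → ℝ) (hf : ∀ k, G e n k = 0 → f k = 0) :
    ∑' k, f k = ∑ k ∈ (hG.fin e n).toFinset, f k := by
  rw [tsum_eq_sum]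
  intro k hk
  apply hf
  by_contra h
  exact hk ((hG.fin e n).mem_toFinset.2 h)

theorem mem_ne (hG : Pk J G) {e : Fin 2} {n : ℕ} {k : K3} (hk : k ∈ (hG.fin e n).toFinset) :
    G e n k ≠ 0 := (hG.fin e n).mem_toFinset.1 hk

theorem ne_z (hG : Pk J G) {e e' : Fin 2} {n n' : ℕ} {k : K3} (hk : G e n k ≠ 0)
    (h : ¬ (e' = e ∧ n' = n)) : G e' n' k = 0 := by
  by_contra h'
  exact h (hG.disj e' n' e n k h' hk)

/-- a sum over all packets at a frequency of the packet `e, n` -/
theorem pick (hG : Pk J G) {e : Fin 2} {n : ℕ} {k : K3} (hk : G e n k ≠ 0) (X Y : ℕ → ℝ) :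
    ∑' m, (X m * G 0 m k + Y m * G 1 m k) = (if e = 0 then X n else Y n) * G e n k := by
  rw [tsum_eq_single n]
  · by_cases he : e = 0
    · subst he
      rw [ne_z hG hk (e' := 1) (n' := n) (by rintro ⟨h, -⟩; exact absurd h (by decide)), mul_zero,
        add_zero, if_pos rfl]
    · obtain rfl : e = 1 := by omega
      rw [ne_z hG hk (e' := 0) (n' := n) (by rintro ⟨h, -⟩; exact absurd h (by decide)), mul_zero,
        zero_add, if_neg he]
  · intro m hm
    rw [ne_z hG hk (e' := 0) (n' := m) (fun h => hm h.2),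
      ne_z hG hk (e' := 1) (n' := m) (fun h => hm h.2), mul_zero, mul_zero, add_zero]

theorem cwp_eq (hG : Pk J G) {e : Fin 2} {n : ℕ} {k : K3} (hk : G e n k ≠ 0) (v : V → V) :
    (cwp G v k 2).re = (fr (fun x => v x 2) k).re - am (G e n) v * G e n k := by
  have h1 := pick hG hk (fun m => am (G 0 m) v) (fun m => am (G 1 m) v)
  have h2 : (if e = 0 then am (G 0 n) v else am (G 1 n) v) = am (G e n) v := by
    by_cases he : e = 0
    · rw [if_pos he, he]
    · obtain rfl : e = 1 := by omega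
      rw [if_neg he]
  rw [h2] at h1
  unfold cwp
  rw [if_pos rfl, Complex.sub_re, Complex.ofReal_re, ← h1]
  congr 1
  refine tsum_congr fun m => ?_
  ring

theorem re_cwp_le (v : V → V) (k : K3) : |(cwp G v k 2).re| ≤ bnp G v k := by
  refine (Complex.abs_re_le_norm _).trans ?_
  unfold bnp
  apply Real.le_sqrt_of_sq_le
  exact Finset.single_le_sum (f := fun i => ‖cwp G v k i‖ ^ 2) (fun i _ => sq_nonneg _)
    (Finset.mem_univ 2)

theorem moda : S_MODA := by
  intro hOP J G α μ hG hGa ν T u q hν hs t ht e n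
  obtain ⟨hO1, -, hO3⟩ := hOP J G α μ hG hGa
  have htI := Ioo_subset_Ico_self ht
  have hUs : SPV (u t) := sol_spv hs htI
  have hq := sol_sp_p hs htI
  have hK : SPV (KP G α μ (u t) (u t)) := hO1 _ _ hUs hUs
  set F : Finset K3 := (hG.fin e n).toFinset with hF
  set x : ℝ := am (G e n) (u t) with hx
  set Q : ℝ := len (qq e n) ^ 2 with hQ
  set c : ℝ := if e = 0 then cXp G α (u t) (u t) n else cYp G α μ (u t) (u t) n with hc
  set w : K3 → ℝ := fun k => (fr (fun y => u t y 2) k).re with hw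
  set b : K3 → ℝ := fun k => (cwp G (u t) k 2).re with hb
  set z : K3 → ℝ := fun k => (fr (conv (fun i y => u t y i) 2) k).re with hz
  have hsq : ∑ k ∈ F, G e n k ^ 2 = 1 := by
    rw [← hG.sq e n, ts hG e n _ fun k hk => by rw [hk]; ring]
  have hxs : ∑ k ∈ F, G e n k * w k = x := by
    rw [hx]
    unfold am
    rw [ts hG e n _ fun k hk => by rw [hk, zero_mul]]
  have hwb : ∀ k ∈ F, w k = x * G e n k + b k := by
    intro k hk
    have := cwp_eq hG (mem_ne hG hk) (u t)
    show (fr (fun y => u t y 2) k).re = _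
    rw [hb]
    simp only []
    rw [this]
    ring
  have hb0 : ∑ k ∈ F, G e n k * b k = 0 := by
    have h1 : ∑ k ∈ F, G e n k * w k = x * ∑ k ∈ F, G e n k ^ 2 + ∑ k ∈ F, G e n k * b k := by
      rw [Finset.mul_sum, ← Finset.sum_add_distrib]
      refine Finset.sum_congr rfl fun k hk => ?_
      rw [hwb k hk]
      ring
    rw [hxs, hsq] at h1
    linarith
  -- the evolution of the coefficients
  have hd : ∀ y, HasDerivAt (fun s => u s y 2) (rhs ν (KP G α μ) (u t) (q t) 2 y) t := fun y =>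
    sol_hasDerivAt hs ht 2 y
  have hder : ∀ k ∈ F, HasDerivAt (fun s => (fr (fun y => u s y 2) k).re)
      (-(ν * ((2 * Real.pi) ^ 2 * len k ^ 2)) * w k - z k + c * G e n k) t := by
    intro k hk
    have h1 := re_deriv (f := fun s y => u s y 2) (smooth_c hs 2) ht hd (rhs_cont' hUs hK hq 2) k
    refine h1.congr_deriv ?_
    have hk2 : k 2 = 0 := hG.hor e n k (mem_ne hG hk)
    have h3 : fr (fun y => KP G α μ (u t) (u t) y 2) k = ((c * G e n k : ℝ) : ℂ) := by
      have h4 : (fun y => KP G α μ (u t) (u t) y 2) = kp G α μ (u t) (u t) := by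
        funext y
        unfold KP
        rw [if_pos rfl]
      rw [h4, hO3 _ _ hUs hUs k, pick hG (mem_ne hG hk)]
    rw [fr_rhs' hUs hK hq, hk2, h3, Complex.add_re, Complex.sub_re, Complex.sub_re,
      Complex.ofReal_re]
    have e2 : (-((ν * ((2 * Real.pi) ^ 2 * len k ^ 2) : ℝ) : ℂ) * fr (fun x => u t x 2) k).re
        = -(ν * ((2 * Real.pi) ^ 2 * len k ^ 2)) * (fr (fun x => u t x 2) k).re := by
      rw [← Complex.ofReal_neg, Complex.re_ofReal_mul]
    rw [e2]
    simp only [Int.cast_zero, mul_zero, zero_mul, Complex.zero_re]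
    ring
  have hD : HasDerivAt (fun s => am (G e n) (u s))
      (∑ k ∈ F, G e n k * (-(ν * ((2 * Real.pi) ^ 2 * len k ^ 2)) * w k - z k + c * G e n k)) t := by
    have h1 : (fun s => am (G e n) (u s)) =
        fun s => ∑ k ∈ F, G e n k * (fr (fun y => u s y 2) k).re := by
      funext s
      unfold am
      rw [ts hG e n _ fun k hk => by rw [hk, zero_mul]]
    rw [h1]
    exact HasDerivAt.fun_sum fun k hk => (hder k hk).const_mul _
  refine ⟨-(ν * (2 * Real.pi) ^ 2) * (∑ k ∈ F, G e n k * ((len k ^ 2 - Q) * b k)) -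
    ∑ k ∈ F, G e n k * z k, ?_, ?_⟩
  · -- the bound
    unfold rhu
    rw [ts hG e n _ fun k hk => by rw [hk, abs_zero, zero_mul]]
    have h1 : -(ν * (2 * Real.pi) ^ 2) * (∑ k ∈ F, G e n k * ((len k ^ 2 - Q) * b k)) -
        ∑ k ∈ F, G e n k * z k = ∑ k ∈ F, (-(ν * (2 * Real.pi) ^ 2) *
          (G e n k * ((len k ^ 2 - Q) * b k)) - G e n k * z k) := by
      rw [Finset.mul_sum, ← Finset.sum_sub_distrib]
    rw [h1]
    refine (Finset.abs_sum_le_sum_abs _ _).trans (Finset.sum_le_sum fun k hk => ?_)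
    have h2 : |len k ^ 2 - Q| ≤ 7 * (Mn 8 n * ((J n : ℝ) - 1)) := hG.near e n k (mem_ne hG hk)
    have h3 : |b k| ≤ bnp G (u t) k := re_cwp_le (u t) k
    have h4 : |z k| ≤ 2 * Real.pi * len k * cv (un (u t)) (un (u t)) k := by
      refine (Complex.abs_re_le_norm _).trans ?_
      have := conv_le hUs (hs.divfree t htI) (fun i => if i = 2 then 1 else 0) k
      simpa [Fin.sum_univ_three] using this
    have h5 : (0 : ℝ) ≤ ν * (2 * Real.pi) ^ 2 := by positivity
    calc |-(ν * (2 * Real.pi) ^ 2) * (G e n k * ((len k ^ 2 - Q) * b k)) - G e n k * z k|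
        ≤ |-(ν * (2 * Real.pi) ^ 2) * (G e n k * ((len k ^ 2 - Q) * b k))| + |G e n k * z k| :=
          abs_sub _ _
      _ = |G e n k| * (ν * (2 * Real.pi) ^ 2 * (|len k ^ 2 - Q| * |b k|) + |z k|) := by
          rw [abs_mul, abs_mul, abs_mul, abs_mul, abs_neg, abs_of_nonneg h5]
          ring
      _ ≤ |G e n k| * (ν * (2 * Real.pi) ^ 2 * (7 * (Mn 8 n * ((J n : ℝ) - 1)) * bnp G (u t) k) +
            2 * Real.pi * len k * cv (un (u t)) (un (u t)) k) := by
          refine mul_le_mul_of_nonneg_left (add_le_add (mul_le_mul_of_nonneg_left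
            (mul_le_mul h2 h3 (abs_nonneg _) ((abs_nonneg _).trans h2)) h5) h4) (abs_nonneg _)
      _ = _ := by ring
  · -- the derivative
    refine hD.congr_deriv ?_
    rw [ts hG e n _ fun k hk => by rw [hk]; ring]
    have h1 : ∑ k ∈ F, G e n k * (-(ν * ((2 * Real.pi) ^ 2 * len k ^ 2)) * w k - z k +
          c * G e n k) =
        -(ν * (2 * Real.pi) ^ 2) * (x * ∑ k ∈ F, G e n k ^ 2 * len k ^ 2) -
          (ν * (2 * Real.pi) ^ 2) * (∑ k ∈ F, G e n k * ((len k ^ 2 - Q) * b k)) -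
          (ν * (2 * Real.pi) ^ 2) * (Q * ∑ k ∈ F, G e n k * b k) -
          ∑ k ∈ F, G e n k * z k + c * ∑ k ∈ F, G e n k ^ 2 := by
      simp only [Finset.mul_sum]
      rw [← Finset.sum_sub_distrib, ← Finset.sum_sub_distrib, ← Finset.sum_sub_distrib,
        ← Finset.sum_add_distrib]
      refine Finset.sum_congr rfl fun k hk => ?_
      rw [hwb k hk]
      ring
    rw [h1, hb0, hsq]
    ring

end Pool.Agent.N27.NSP.Moda
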